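import Mathlib
import Pool.Agent.Results.MP_2f4f34_gt.RankOmegaOne

/-!
# Fréchet-Urysohn groups whose sequence-rank is a given regular cardinal

For a regular uncountable cardinal `κ` let `G_κ` be the group of the file `RankOmegaOne` for the
well-ordered set `κ` instead of `ω₁`. Its sequence-rank is at least `κ`, and it is at most the least
cardinality of a family of countable subsets of `κ` such that every countable subset of `κ` is
contained in a member of the family. So the sequence-rank of `G_κ` is `κ` for `κ = ℵ_n`, `n ≥ 1`,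
and for all regular `κ` with `κ ^ ω = κ`.
-/

set_option autoImplicit false

open Filter Topology Set Cardinal

namespace Pool.Agent.Results.MP_2f4f34_gt.RegularRanks

open RankOmegaOne

/-- On every set of cardinality at most `κ` there is a family of at most `κ` countable subsets such
that every countable subset is contained in a member of the family. For infinite `κ` this means
that the cofinality of the set of the countable subsets of `κ` is at most `κ`. -/
def Covers (κ : Cardinal.{0}) : Prop :=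
  ∀ X : Type, #X ≤ κ → ∃ F : Set (Set X), #F ≤ κ ∧ (∀ C ∈ F, C.Countable) ∧
    ∀ C : Set X, C.Countable → ∃ D ∈ F, C ⊆ D

section rank

variable {I : Type} [LinearOrder I]

/-- a sequence enumerating the basis vectors of a countable set (with zeros in between) -/
theorem exists_enum {C : Set I} (hC : C.Countable) :
    ∃ (v : ℕ → V I) (c : I → ℕ), InjOn c C ∧ (∀ ξ ∈ C, v (c ξ) = Finsupp.single ξ 1) ∧
      ∀ i j k, v j i ≠ 0 → v k i ≠ 0 → j = k := by
  classical
  obtain ⟨c, hc⟩ := Set.countable_iff_exists_injOn.1 hC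
  let v : ℕ → V I := fun n => if h : ∃ ξ, ξ ∈ C ∧ c ξ = n then Finsupp.single h.choose 1 else 0
  have hv : ∀ ξ ∈ C, v (c ξ) = Finsupp.single ξ 1 := by
    intro ξ hξ
    have h : ∃ η, η ∈ C ∧ c η = c ξ := ⟨ξ, hξ, rfl⟩
    have h' : h.choose = ξ := hc h.choose_spec.1 hξ h.choose_spec.2
    simp only [v, dif_pos h, h']
  refine ⟨v, c, hc, hv, ?_⟩
  have key : ∀ i j, v j i ≠ 0 → c i = j := by
    intro i j hj
    by_cases h : ∃ ξ, ξ ∈ C ∧ c ξ = j
    · simp only [v, dif_pos h] at hj
      have : h.choose = i := by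
        by_contra hne
        exact hj (Finsupp.single_eq_of_ne (Ne.symm hne))
      rw [← this]
      exact h.choose_spec.2
    · simp [v, dif_neg h] at hj
  intro i j k hj hk
  rw [← key i j hj, ← key i k hk]

/-- The topology of `G` is generated by sequences indexed by a cofinal family of countable sets. -/
theorem exists_generating (F : Set (Set I)) (hF : ∀ C ∈ F, C.Countable)
    (hcov : ∀ C : Set I, C.Countable → ∃ D ∈ F, C ⊆ D) :
    ∃ S : Set (ℕ → G I), IsTau S (G.top I) ∧ #S ≤ #F := by
  classical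
  choose v c hc hv hdis using fun C : F => exists_enum (hF C.1 C.2)
  refine ⟨range fun (C : F) (n : ℕ) => (⟨v C n, 1⟩ : G I), ⟨⟨G.isTopologicalGroup, G.t2, ?_⟩, ?_⟩,
    mk_range_le⟩
  · rintro _ ⟨C, rfl⟩
    have := tendsto_of_disjoint (1 : G I) (v C) (hdis C)
    simpa using this
  · intro σ hσ
    have hσg : @IsTopologicalGroup (G I) σ _ := hσ.group
    have key : ∀ W ∈ @nhds (G I) σ 1, W ∈ @nhds (G I) (G.top I) 1 := by
      intro W hW
      rw [G.mem_nhds_one]
      by_contra hcon
      push Not at hcon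
      obtain ⟨x, hx1, hx2⟩ := exists_disjoint_seq (fun x : V I => (⟨x, 1⟩ : G I) ∉ W) (by
        intro F
        obtain ⟨⟨x, k⟩, ⟨hk, hx⟩, hW'⟩ := Set.not_subset.1 (hcon F)
        have hk' : k = 1 := hk
        subst hk'
        exact ⟨x, hx, hW'⟩)
      have hx0 : ∀ k, x k ≠ 0 := by
        intro k h0
        apply hx1 k
        rw [h0]
        exact mem_of_mem_nhds hW
      obtain ⟨ξ, h, hξ, hh⟩ := exists_auto x hx0 hx2
      have hξinj : Function.Injective ξ := fun j k hjk =>
        hx2 (ξ j) j k (hξ j) (by rw [hjk]; exact hξ k)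
      obtain ⟨D, hD, hξD⟩ := hcov (range ξ) (countable_range ξ)
      have hα' : ∀ k, ξ k ∈ (⟨D, hD⟩ : F).1 := fun k => hξD ⟨k, rfl⟩
      have h1 : Tendsto (fun n => (⟨v ⟨D, hD⟩ n, 1⟩ : G I)) atTop (@nhds (G I) σ 1) :=
        hσ.conv _ ⟨⟨D, hD⟩, rfl⟩
      have h2 : Tendsto (fun g : G I => (⟨0, h⟩ : G I) * g * (⟨0, h⟩ : G I)⁻¹) (@nhds (G I) σ 1)
          (@nhds (G I) σ 1) := by
        have := (IsTopologicalGroup.continuous_conj (⟨0, h⟩ : G I)).tendsto (1 : G I)
        simpa using this
      have h3 : Tendsto (fun k => c ⟨D, hD⟩ (ξ k)) atTop atTop := by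
        apply Function.Injective.nat_tendsto_atTop
        intro j k hjk
        exact hξinj (hc ⟨D, hD⟩ (hα' j) (hα' k) hjk)
      have h4 := (h2.comp h1).comp h3
      have h5 : ∀ᶠ k in atTop, (⟨x k, 1⟩ : G I) ∈ W := by
        have := h4.eventually_mem hW
        filter_upwards [this] with k hk
        simp only [Function.comp_apply, G.conj_mem, hv ⟨D, hD⟩ (ξ k) (hα' k), hh k] at hk
        exact hk
      obtain ⟨k, hk⟩ := h5.exists
      exact hx1 k hk
    have hid : @Continuous (G I) (G I) (G.top I) σ (MonoidHom.id (G I)) := by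
      refine @continuous_of_continuousAt_one (G I) (G.top I) _ G.isTopologicalGroup (G I)
        (G I →* G I) _ σ (@IsTopologicalGroup.toContinuousMul _ σ _ hσ.group) _ _
        (MonoidHom.id (G I)) ?_
      intro W hW
      exact key W hW
    exact continuous_id_iff_le.1 hid

/-- Sets of fewer than `cof I` elements are bounded. -/
theorem exists_bound {C : Set I} (hC : #C < Order.cof I) : ∃ α : I, ∀ i ∈ C, i < α := by
  by_contra hcon
  push Not at hcon
  exact absurd (Order.cof_le (s := C) (fun α => hcon α)) (not_le.2 hC)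

/-- Fewer than `cof I` sequences do not generate the topology of `G`. -/
theorem cof_le_of_isTau (hI : ℵ₀ < Order.cof I) (S : Set (ℕ → G I)) (hS : IsTau S (G.top I)) :
    Order.cof I ≤ #S := by
  classical
  by_contra hlt
  push Not at hlt
  obtain ⟨hA, hB⟩ := hS
  obtain ⟨α, hα⟩ : ∃ α : I, ∀ u ∈ S, ∀ n i, (u n).a i ≠ 0 → i < α := by
    have hc : #(⋃ p : S × ℕ, ((p.1.1 p.2).a.support : Set I)) < Order.cof I := by
      refine (mk_iUnion_le_sum_mk).trans_lt ?_
      refine (sum_le_sum _ (fun _ => ℵ₀) (fun p => ?_)).trans_lt ?_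
      · exact (Finset.countable_toSet _).le_aleph0
      · rw [sum_const, Cardinal.lift_id, Cardinal.lift_id, ← mul_def, mk_nat]
        exact mul_lt_of_lt hI.le (mul_lt_of_lt hI.le hlt hI) hI
    obtain ⟨α, hα⟩ := exists_bound hc
    refine ⟨α, fun u hu n i hi => hα i ?_⟩
    exact mem_iUnion.2 ⟨(⟨u, hu⟩, n), Finsupp.mem_support_iff.2 hi⟩
  have hnormal : (VV α).Normal := VV_normal α
  obtain ⟨q, hq, hq1⟩ := exists_quotient_topology (VV α)
  have hle : G.top I ≤ G.top I ⊓ q := by
    refine hB _ ⟨topologicalGroup_inf G.isTopologicalGroup hq, ?_, ?_⟩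
    · exact @t2Space_antitone (G I) _ _ inf_le_left G.t2
    · intro u hu
      have h1 := hA.conv u hu
      rw [@nhds_inf (G I) (G.top I) q, tendsto_inf]
      refine ⟨h1, ?_⟩
      have h2 : ∀ᶠ n in atTop, u n ∈ (VV α : Set (G I)) := by
        have h3 : G.U (∅ : Finset I) ∈ @nhds (G I) (G.top I) 1 :=
          (G.mem_nhds_one _).2 ⟨∅, le_rfl⟩
        filter_upwards [h1 h3] with n hn
        exact ⟨hn.1, hα u hu n⟩
      rw [tendsto_def]
      intro W hW
      filter_upwards [h2] with n hn
      exact (hq1 W).1 hW hn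
  have hle' : G.top I ≤ q := hle.trans inf_le_right
  have hopen : (VV α : Set (G I)) ∈ @nhds (G I) (G.top I) 1 :=
    nhds_mono hle' ((hq1 _).2 le_rfl)
  obtain ⟨F, hF⟩ := (G.mem_nhds_one _).1 hopen
  obtain ⟨β, hβ⟩ := exists_bound (C := (F : Set I) ∪ {α})
    ((((Finset.countable_toSet F).union (countable_singleton α)).le_aleph0).trans_lt hI)
  have h5 : (⟨Finsupp.single β 1, 1⟩ : G I) ∈ G.U F := by
    refine ⟨rfl, fun i hi => ?_⟩
    have : i ≠ β := (hβ i (Or.inl hi)).ne
    exact Finsupp.single_eq_of_ne this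
  have h6 := (hF h5).2 β (by simp)
  exact lt_asymm h6 (hβ α (Or.inr rfl))

end rank

/-! ### Cofinal families of countable sets -/

theorem covers_aleph0 : Covers ℵ₀ := by
  intro X hX
  have hX' : Countable X := mk_le_aleph0_iff.1 hX
  refine ⟨{Set.univ}, ?_, ?_, fun C _ => ⟨Set.univ, rfl, subset_univ C⟩⟩
  · rw [mk_singleton]
    exact one_le_aleph0
  · rintro C rfl
    exact countable_univ

theorem covers_succ {κ : Cardinal.{0}} (hκ : ℵ₀ ≤ κ) (h : Covers κ) :
    Covers (Order.succ κ) := by
  classical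
  intro X hX
  let W : Type := (Order.succ κ).ord.ToType
  have hW : #W = Order.succ κ := by simp [W]
  have hWc : Order.cof W = Order.succ κ := by
    rw [Ordinal.cof_toType]
    exact (isRegular_succ hκ).cof_ord
  rw [← hW] at hX
  obtain ⟨f⟩ := hX
  have h1 : ∀ α : W, #{x | f x < α} ≤ κ := by
    intro α
    have h2 : #(Iio α) < Order.succ κ := by
      have := Cardinal.mk_Iio_lt α (by rw [hW]; simp [W])
      rwa [hW] at this
    refine le_trans ?_ (Order.lt_succ_iff.1 h2)
    exact mk_le_of_injective (f := fun x : {x | f x < α} => (⟨f x.1, x.2⟩ : Iio α))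
      (fun x y hxy => Subtype.ext (f.injective (congrArg Subtype.val hxy)))
  choose F hF1 hF2 hF3 using fun α : W => h {x | f x < α} (h1 α)
  refine ⟨⋃ α : W, (fun C : Set {x | f x < α} => Subtype.val '' C) '' (F α), ?_, ?_, ?_⟩
  · refine (mk_iUnion_le_sum_mk).trans ?_
    refine (sum_le_sum _ (fun _ => κ) (fun α => mk_image_le.trans (hF1 α))).trans ?_
    rw [sum_const, Cardinal.lift_id, Cardinal.lift_id, hW]
    exact (mul_le_mul' le_rfl (Order.le_succ κ)).trans
      (mul_eq_self (hκ.trans (Order.le_succ κ))).le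
  · intro C hC
    obtain ⟨α, D, hD, rfl⟩ := mem_iUnion.1 hC
    exact (hF2 α D hD).image _
  · intro C hC
    obtain ⟨α, hα⟩ := exists_bound (I := W) (C := f '' C) (by
      rw [hWc]
      exact ((hC.image f).le_aleph0).trans_lt (hκ.trans_lt (Order.lt_succ κ)))
    obtain ⟨D, hD, hCD⟩ := hF3 α (Subtype.val ⁻¹' C) (hC.preimage Subtype.val_injective)
    refine ⟨Subtype.val '' D, mem_iUnion.2 ⟨α, D, hD, rfl⟩, ?_⟩
    intro x hx
    exact ⟨⟨x, hα _ ⟨x, hx, rfl⟩⟩, hCD hx, rfl⟩

theorem covers_aleph (n : ℕ) : Covers (ℵ_ (n : Ordinal.{0})) := by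
  induction n with
  | zero =>
    rw [Nat.cast_zero, aleph_zero]
    exact covers_aleph0
  | succ n ih =>
    rw [Nat.cast_succ, ← succ_aleph]
    exact covers_succ (aleph0_le_aleph _) ih

theorem covers_of_pow {κ : Cardinal.{0}} (hκ : ℵ₀ ≤ κ) (h : κ ^ ℵ₀ = κ) : Covers κ := by
  classical
  intro X hX
  refine ⟨{C : Set X | C.Countable}, ?_, fun C hC => hC, fun C hC => ⟨C, hC, subset_rfl⟩⟩
  have h1 : #{C : Set X | C.Countable} ≤ #(ℕ → Option X) := by
    refine mk_le_of_surjective (f := fun g : ℕ → Option X =>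
      (⟨{x | ∃ n, g n = some x}, ?_⟩ : {C : Set X | C.Countable})) ?_
    · have : {x | ∃ n, g n = some x} = ⋃ n, {x | g n = some x} := by
        ext x; simp
      change {x | ∃ n, g n = some x}.Countable
      rw [this]
      refine countable_iUnion (fun n => Set.Subsingleton.countable ?_)
      intro x hx y hy
      have hx' : g n = some x := hx
      have hy' : g n = some y := hy
      rw [hx'] at hy'
      exact Option.some_injective _ hy'
    · rintro ⟨C, hC⟩
      obtain ⟨c, hc⟩ := Set.countable_iff_exists_injOn.1 (show C.Countable from hC)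
      refine ⟨fun n => if h : ∃ x ∈ C, c x = n then some h.choose else none, ?_⟩
      apply Subtype.ext
      ext x
      constructor
      · rintro ⟨n, hn⟩
        by_cases h : ∃ x ∈ C, c x = n
        · simp only [dif_pos h, Option.some.injEq] at hn
          rw [← hn]
          exact h.choose_spec.1
        · simp only [dif_neg h] at hn
          exact absurd hn (by simp)
      · intro hx
        refine ⟨c x, ?_⟩
        have h : ∃ y ∈ C, c y = c x := ⟨x, hx, rfl⟩
        simp only [dif_pos h, Option.some.injEq]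
        exact hc h.choose_spec.1 hx h.choose_spec.2
  refine h1.trans ?_
  have h2 : #(ℕ → Option X) = #(Option X) ^ ℵ₀ := by simp
  rw [h2]
  refine (power_le_power_right ?_).trans h.le
  rw [mk_option]
  exact (add_le_add hX (one_le_aleph0.trans hκ)).trans (add_eq_self hκ).le

/-- **Fréchet-Urysohn groups of regular sequence-rank.** Let `κ` be a regular cardinal such that
`κ = ℵ_{n+1}` for some natural number `n`, or `κ ^ ω = κ`, or, more generally, `κ` is uncountable
and the cofinality of the family of the countable subsets of `κ` is at most `κ`. Then there is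
(in ZFC) a Hausdorff Fréchet-Urysohn topological group with `r_s(G, τ) = κ`. -/
theorem result (κ : Cardinal.{0}) (hκ : κ.IsRegular)
    (h : (∃ n : ℕ, κ = ℵ_ ((n : Ordinal.{0}) + 1)) ∨ κ ^ ℵ₀ = κ ∨ (ℵ₀ < κ ∧ Covers κ)) :
    ∃ (G : Type) (_ : Group G) (τ : TopologicalSpace G),
      @IsTopologicalGroup G τ _ ∧ @T2Space G τ ∧ @FrechetUrysohnSpace G τ ∧ IsSGroup τ ∧
        rs τ = κ := by
  obtain ⟨hκ0, hcov⟩ : ℵ₀ < κ ∧ Covers κ := by
    rcases h with ⟨n, rfl⟩ | h | h
    · have h1 := covers_aleph (n + 1)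
      rw [Nat.cast_succ] at h1
      refine ⟨?_, h1⟩
      rw [← aleph_zero]
      exact aleph_lt_aleph.2 (by positivity)
    · refine ⟨?_, covers_of_pow hκ.1 h⟩
      refine lt_of_le_of_ne hκ.1 (fun heq => ?_)
      rw [← heq] at h
      have h1 : ℵ₀ < (ℵ₀ : Cardinal.{0}) ^ (ℵ₀ : Cardinal.{0}) :=
        (cantor _).trans_le (power_le_power_right (natCast_lt_aleph0 (n := 2)).le)
      rw [h] at h1
      exact lt_irrefl _ h1
    · exact h
  let I : Type := κ.ord.ToType
  have hcard : #I = κ := by simp [I]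
  have hcof : Order.cof I = κ := by
    rw [Ordinal.cof_toType]
    exact hκ.cof_ord
  obtain ⟨F, hF1, hF2, hF3⟩ := hcov I hcard.le
  obtain ⟨S, hS1, hS2⟩ := exists_generating F hF2 hF3
  refine ⟨G I, inferInstance, G.top I, G.isTopologicalGroup, G.t2, frechetUrysohn, ⟨S, hS1⟩, ?_⟩
  apply le_antisymm
  · exact (csInf_le' (s := {c | ∃ S : Set (ℕ → G I), IsTau S (G.top I) ∧ #S = c})
      ⟨S, hS1, rfl⟩).trans (hS2.trans hF1)
  · refine le_csInf ⟨_, S, hS1, rfl⟩ ?_
    rintro _ ⟨S', hS', rfl⟩
    exact hcof.ge.trans (cof_le_of_isTau (by rw [hcof]; exact hκ0) S' hS')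

end Pool.Agent.Results.MP_2f4f34_gt.RegularRanks
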